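import Pool.Agent.TH694.FV.Defs2
import Pool.Agent.H135R2.Pin.Paths

/-!
# Fans and tight legs (helper883, job 2473)
-/

set_option autoImplicit false

namespace Pool.Agent.TH883.FV.J2473

open Pool.Agent.TH694.FV Pool.Agent.H135R2.Menger

/-- the auxiliary graph: a new vertex joined to all of `Z` -/
def aux {V : Type} (T : SimpleGraph V) (Z : Finset V) : SimpleGraph (Option V) where
  Adj u w := match u, w with
    | some u, some w => T.Adj u w
    | some u, none => u ∈ Z
    | none, some w => w ∈ Z
    | none, none => False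
  symm := ⟨by
    intro u w h
    cases u <;> cases w
    · exact h
    · exact h
    · exact h
    · exact T.adj_symm h⟩
  loopless := ⟨by
    intro u h
    cases u
    · exact h
    · exact T.loopless.irrefl _ h⟩

theorem to_T {V : Type} (T : SimpleGraph V) (Z : Finset V) :
    ∀ (x y : Option V) (w : (aux T Z).Walk x y), w.IsPath → y = none → ∀ u, x = some u →
      ∃ z ∈ Z, ∃ p : T.Walk u z, p.IsPath ∧ ∀ a ∈ p.support, some a ∈ w.support := by
  intro x y w
  induction w with
  | nil =>
    intro _ hy u hx
    rw [hx] at hy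
    exact absurd hy (by simp)
  | @cons x x' y hadj w ih =>
    intro hp hy u hx
    rw [SimpleGraph.Walk.cons_isPath_iff] at hp
    subst hx
    cases x' with
    | none =>
      refine ⟨u, hadj, SimpleGraph.Walk.nil, SimpleGraph.Walk.IsPath.nil, ?_⟩
      intro a ha
      simp only [SimpleGraph.Walk.support_nil, List.mem_singleton] at ha
      subst ha
      simp
    | some u' =>
      obtain ⟨z, hz, p, hp1, hp2⟩ := ih hp.1 hy u' rfl
      have hadj' : T.Adj u u' := hadj
      refine ⟨z, hz, SimpleGraph.Walk.cons hadj' p, ?_, ?_⟩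
      · rw [SimpleGraph.Walk.cons_isPath_iff]
        exact ⟨hp1, fun h => hp.2 (hp2 _ h)⟩
      · intro a ha
        rw [SimpleGraph.Walk.support_cons, List.mem_cons] at ha
        rw [SimpleGraph.Walk.support_cons, List.mem_cons]
        rcases ha with rfl | ha
        · exact Or.inl rfl
        · exact Or.inr (hp2 _ ha)

/-- Menger's theorem for a fan of three paths. -/
theorem fan3 {V : Type} [Fintype V] [DecidableEq V] (T : SimpleGraph V) (v : V) (Z : Finset V)
    (hv : v ∉ Z) (hZ : Z.Nonempty) (h : ∀ a b, a ≠ v → b ≠ v → ∃ z ∈ Z, z ≠ a ∧ z ≠ b ∧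
      ∃ p : T.Walk v z, a ∉ p.support ∧ b ∉ p.support) :
    ∃ (z : Fin 3 → V) (p : ∀ i, T.Walk v (z i)), (∀ i, z i ∈ Z) ∧ Legs T 3 0 v z p := by
  classical
  obtain ⟨P, hP1, hP2⟩ := menger_paths (aux T Z) (x := some v) (y := none) (by simp)
    (fun hadj => hv hadj) 3 (by
      intro P S hxP hyP hxS hyS hPS
      by_contra hlt
      push Not at hlt
      obtain ⟨z0, hz0⟩ := hZ
      have hz0v : z0 ≠ v := fun e => hv (e ▸ hz0)
      -- a pair containing S
      obtain ⟨a, b, ha, hb, hS⟩ : ∃ a b, a ≠ v ∧ b ≠ v ∧ ∀ s ∈ S, s = some a ∨ s = some b := by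
        have hS1 : ∀ s ∈ S, ∃ a, a ≠ v ∧ s = some a := by
          intro s hs
          cases s with
          | none => exact absurd hs hyS
          | some a => exact ⟨a, fun e => hxS (e ▸ hs), rfl⟩
        have hcard : S.card = 0 ∨ S.card = 1 ∨ S.card = 2 := by omega
        rcases hcard with hc | hc | hc
        · rw [Finset.card_eq_zero] at hc
          exact ⟨z0, z0, hz0v, hz0v, fun s hs => by rw [hc] at hs; simp at hs⟩
        · rw [Finset.card_eq_one] at hc
          obtain ⟨s, rfl⟩ := hc
          obtain ⟨a, ha, rfl⟩ := hS1 s (by simp)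
          exact ⟨a, a, ha, ha, fun s hs => by simp at hs; simp [hs]⟩
        · rw [Finset.card_eq_two] at hc
          obtain ⟨s, t, _, rfl⟩ := hc
          obtain ⟨a, ha, rfl⟩ := hS1 s (by simp)
          obtain ⟨b, hb, rfl⟩ := hS1 t (by simp)
          exact ⟨a, b, ha, hb, fun s hs => by simpa using hs⟩
      obtain ⟨z, hz, hza, hzb, p, hpa, hpb⟩ := h a b ha hb
      have hin : ∀ (u w : V) (p : T.Walk u w), a ∉ p.support → b ∉ p.support →
          some u ∈ P → some w ∈ P := by
        intro u w p
        induction p with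
        | nil => intro _ _ h; exact h
        | @cons u u' w hadj p ih =>
          intro ha hb hu
          rw [SimpleGraph.Walk.support_cons, List.mem_cons, not_or] at ha hb
          apply ih ha.2 hb.2
          by_contra hnot
          rcases hS _ (hPS (some u) (some u') hu hnot hadj) with e | e
          · have e' : u' = a := by simpa using e
            exact ha.2 (e' ▸ SimpleGraph.Walk.start_mem_support p)
          · have e' : u' = b := by simpa using e
            exact hb.2 (e' ▸ SimpleGraph.Walk.start_mem_support p)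
      have hzP := hin v z p hpa hpb hxP
      exact hyS (hPS (some z) none hzP hyP hz))
  have hT := fun i => to_T T Z _ _ (P i) (hP1 i) rfl v rfl
  choose z hz p hp1 hp2 using hT
  refine ⟨z, p, hz, hp1, fun i => Nat.zero_le _, ?_⟩
  intro i j hij u hui huj
  rcases hP2 i j hij (some u) (hp2 i u hui) (hp2 j u huj) with e | e
  · simpa using e
  · exact absurd e (by simp)

/-- Three long paths starting in `v`, each of which contains only one neighbour of `v`. -/
theorem legs3 {V : Type} [Fintype V] [DecidableEq V] (T : SimpleGraph V) (h3 : Three' T) (L : ℕ)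
    (hL : 1 ≤ L) (v : V) (hv : v ∈ T.support) (Z : Finset V) (hZ : 3 ≤ Z.card)
    (hZT : ∀ z ∈ Z, z ∈ T.support ∧ ∀ p : T.Walk v z, L ≤ p.length) :
    ∃ (z : Fin 3 → V) (p : ∀ i, T.Walk v (z i)), Legs T 3 L v z p ∧
      ∀ i, ∀ u ∈ (p i).support, T.Adj v u → u = (p i).snd := by
  classical
  have hvZ : v ∉ Z := by
    intro hvZ
    have := (hZT v hvZ).2 SimpleGraph.Walk.nil
    simp at this
    omega
  have hne : Z.Nonempty := Finset.card_pos.1 (by omega)
  have hex : ∃ n : ℕ, ∃ (z : Fin 3 → V) (p : ∀ i, T.Walk v (z i)), (∀ i, z i ∈ Z) ∧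
      Legs T 3 0 v z p ∧ ∑ i, (p i).length = n := by
    obtain ⟨z, p, hz, hp⟩ := fan3 T v Z hvZ hne (by
      intro a b ha hb
      have : ∃ z ∈ Z, z ≠ a ∧ z ≠ b := by
        by_contra hcon
        push Not at hcon
        have hsub : Z ⊆ {a, b} := by
          intro z hz
          by_cases hza : z = a
          · simp [hza]
          · simp [hcon z hz hza]
        have h1 := Finset.card_le_card hsub
        have h2 := Finset.card_le_two (a := a) (b := b)
        omega
      obtain ⟨z, hz, hza, hzb⟩ := this
      exact ⟨z, hz, hza, hzb, h3 v z a b hv (hZT z hz).1 ha.symm hb.symm hza hzb⟩)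
    exact ⟨_, z, p, hz, hp, rfl⟩
  obtain ⟨z, p, hz, hleg, hsum⟩ := Nat.find_spec hex
  have hmin := fun n (hn : n < Nat.find hex) => Nat.find_min hex hn
  refine ⟨z, p, ⟨hleg.1, fun i => (hZT _ (hz i)).2 _, hleg.2.2⟩, ?_⟩
  intro i u hu hadj
  by_contra hsnd
  have huv : u ≠ v := hadj.ne'
  have hpath := hleg.1 i
  have hspec := (p i).take_spec hu
  have hlen : (p i).length = ((p i).takeUntil u hu).length + ((p i).dropUntil u hu).length := by
    conv_lhs => rw [← hspec]
    rw [SimpleGraph.Walk.length_append]
  have ht2 : 2 ≤ ((p i).takeUntil u hu).length := by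
    have hgv := (p i).getVert_length_takeUntil hu
    by_contra hlt
    have h01 : ((p i).takeUntil u hu).length = 0 ∨ ((p i).takeUntil u hu).length = 1 := by omega
    rcases h01 with h | h
    · rw [h, SimpleGraph.Walk.getVert_zero] at hgv
      exact huv hgv.symm
    · rw [h] at hgv
      exact hsnd hgv.symm
  have hvd : v ∉ ((p i).dropUntil u hu).support := by
    intro hmem
    have hnd : (p i).support.Nodup := (SimpleGraph.Walk.isPath_def _).1 hpath
    rw [← hspec, SimpleGraph.Walk.support_append_eq_support_dropLast_append] at hnd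
    have hnn : ¬ ((p i).takeUntil u hu).Nil := by
      rw [← SimpleGraph.Walk.length_eq_zero_iff]
      omega
    have hvm : v ∈ ((p i).takeUntil u hu).support.dropLast := by
      have : ((p i).takeUntil u hu).support = v :: ((p i).takeUntil u hu).support.tail :=
        (SimpleGraph.Walk.cons_tail_support _).symm
      have hl : 1 ≤ ((p i).takeUntil u hu).support.tail.length := by
        rw [List.length_tail, SimpleGraph.Walk.length_support]
        omega
      rw [this]
      rcases ht : ((p i).takeUntil u hu).support.tail with _ | ⟨c, l⟩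
      · rw [ht] at hl; simp at hl
      · simp [List.dropLast]
    exact (List.nodup_append.1 hnd).2.2 v hvm v hmem rfl
  -- the shorter fan
  set new : T.Walk v (z i) := SimpleGraph.Walk.cons hadj ((p i).dropUntil u hu) with hnew
  have hnp : new.IsPath := by
    rw [hnew, SimpleGraph.Walk.cons_isPath_iff]
    exact ⟨hpath.dropUntil hu, hvd⟩
  have hns : ∀ a ∈ new.support, a ∈ (p i).support := by
    intro a ha
    rw [hnew, SimpleGraph.Walk.support_cons, List.mem_cons] at ha
    rcases ha with rfl | ha
    · exact SimpleGraph.Walk.start_mem_support _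
    · exact (p i).support_dropUntil_subset_support hu ha
  have hnl : new.length < (p i).length := by
    rw [hnew, SimpleGraph.Walk.length_cons]
    omega
  set p' : ∀ i, T.Walk v (z i) := Function.update p i new with hp'
  have hp'i : p' i = new := by simp [hp']
  have hp'j : ∀ j, j ≠ i → p' j = p j := fun j hj => by simp [hp', hj]
  have hsub : ∀ j, ∀ a ∈ (p' j).support, a ∈ (p j).support := by
    intro j a ha
    by_cases hj : j = i
    · subst hj; rw [hp'i] at ha; exact hns a ha
    · rwa [hp'j j hj] at ha
  have hlt : ∑ j, (p' j).length < ∑ j, (p j).length := by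
    refine Finset.sum_lt_sum (fun j _ => ?_) ⟨i, Finset.mem_univ _, by rw [hp'i]; exact hnl⟩
    by_cases hj : j = i
    · subst hj; rw [hp'i]; exact hnl.le
    · rw [hp'j j hj]
  rw [hsum] at hlt
  refine hmin _ hlt ⟨z, p', hz, ⟨?_, fun j => Nat.zero_le _, ?_⟩, rfl⟩
  · intro j
    by_cases hj : j = i
    · subst hj; rw [hp'i]; exact hnp
    · rw [hp'j j hj]; exact hleg.1 j
  · intro j k hjk a haj hak
    exact hleg.2.2 j k hjk a (hsub j a haj) (hsub k a hak)

end Pool.Agent.TH883.FV.J2473
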