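import Pool.Agent.TH694.FV.Defs2
import Pool.Agent.H135R2.Pin.Paths

/-!
# Hubs (helper883, job 2474)
-/

set_option autoImplicit false

namespace Pool.Agent.TH883.FV.J2474

open Pool.Agent.TH694.FV Pool.Agent.H135R2.Menger

/-- the sunflower lemma for indexed families -/
theorem delta (s : ℕ) : ∀ k : ℕ, ∃ m : ℕ, ∀ {V ι : Type} [DecidableEq V] [DecidableEq ι]
    (I : Finset ι) (A : ι → Finset V), m ≤ I.card → (∀ i ∈ I, (A i).card ≤ s) →
    ∃ J ⊆ I, ∃ K : Finset V, k ≤ J.card ∧ ∀ i ∈ J, ∀ j ∈ J, i ≠ j → A i ∩ A j = K := by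
  classical
  induction s with
  | zero =>
    intro k
    refine ⟨k, fun {V ι} _ _ I A hI hA => ⟨I, subset_rfl, ∅, hI, ?_⟩⟩
    intro i hi j _ _
    have : A i = ∅ := Finset.card_eq_zero.1 (Nat.le_zero.1 (hA i hi))
    rw [this, Finset.empty_inter]
  | succ s ih =>
    intro k
    obtain ⟨m, hm⟩ := ih k
    refine ⟨k + k * (s + 1) * m + 1, fun {V ι} _ _ I A hI hA => ?_⟩
    obtain ⟨good, hgood⟩ : ∃ good : Finset ι → Prop, ∀ J, good J ↔
        ∀ i ∈ J, ∀ j ∈ J, i ≠ j → A i ∩ A j = ∅ := ⟨_, fun _ => Iff.rfl⟩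
    obtain ⟨J, hJ, hJmax⟩ := Finset.exists_max_image (I.powerset.filter good) Finset.card
      ⟨∅, by
        rw [Finset.mem_filter, Finset.mem_powerset]
        exact ⟨Finset.empty_subset _, (hgood _).2 (by simp)⟩⟩
    rw [Finset.mem_filter, Finset.mem_powerset, hgood] at hJ
    by_cases hk : k ≤ J.card
    · exact ⟨J, hJ.1, ∅, hk, hJ.2⟩
    push Not at hk
    set U := J.biUnion A with hU
    have hUc : U.card ≤ k * (s + 1) := by
      refine (Finset.card_biUnion_le).trans ?_
      refine (Finset.sum_le_card_nsmul J _ (s + 1) fun i hi => hA i (hJ.1 hi)).trans ?_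
      rw [smul_eq_mul]
      exact Nat.mul_le_mul_right _ hk.le
    have hmeet : ∀ i ∈ I \ J, ∃ u ∈ U, u ∈ A i := by
      intro i hi
      rw [Finset.mem_sdiff] at hi
      by_contra hcon
      push Not at hcon
      have h1 : insert i J ∈ I.powerset.filter good := by
        rw [Finset.mem_filter, Finset.mem_powerset, hgood]
        refine ⟨Finset.insert_subset hi.1 hJ.1, ?_⟩
        have haux : ∀ j ∈ J, A i ∩ A j = ∅ := by
          intro j hj
          rw [Finset.eq_empty_iff_forall_notMem]
          intro u hu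
          rw [Finset.mem_inter] at hu
          exact hcon u (Finset.mem_biUnion.2 ⟨j, hj, hu.2⟩) hu.1
        intro a ha b hb hab
        rw [Finset.mem_insert] at ha hb
        rcases ha with rfl | ha
        · rcases hb with rfl | hb
          · exact absurd rfl hab
          · exact haux b hb
        · rcases hb with rfl | hb
          · rw [Finset.inter_comm]; exact haux a ha
          · exact hJ.2 a ha b hb hab
      have h2 := hJmax _ h1
      rw [Finset.card_insert_of_notMem hi.2] at h2
      omega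
    have hne : Nonempty V := by
      have : (I \ J).Nonempty := by
        rw [← Finset.card_pos]
        have := Finset.le_card_sdiff J I
        omega
      obtain ⟨i, hi⟩ := this
      obtain ⟨u, _⟩ := hmeet i hi
      exact ⟨u⟩
    have hch : ∀ i : ι, ∃ u : V, i ∈ I \ J → u ∈ U ∧ u ∈ A i := by
      intro i
      by_cases hi : i ∈ I \ J
      · obtain ⟨u, h1, h2⟩ := hmeet i hi
        exact ⟨u, fun _ => ⟨h1, h2⟩⟩
      · exact ⟨hne.some, fun h => absurd h hi⟩
    choose f hf using hch
    have hcard : U.card * m < (I \ J).card := by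
      have h1 := Finset.le_card_sdiff J I
      have h2 : U.card * m ≤ k * (s + 1) * m := Nat.mul_le_mul_right _ hUc
      omega
    obtain ⟨u, huU, hu⟩ := Finset.exists_lt_card_fiber_of_mul_lt_card_of_maps_to
      (fun i hi => (hf i hi).1) hcard
    set I' := (I \ J).filter (fun i => f i = u) with hI'
    have hI'u : ∀ i ∈ I', i ∈ I ∧ u ∈ A i := by
      intro i hi
      rw [hI', Finset.mem_filter] at hi
      refine ⟨(Finset.mem_sdiff.1 hi.1).1, ?_⟩
      rw [← hi.2]
      exact (hf i hi.1).2
    obtain ⟨J', hJ', K, hK1, hK2⟩ := hm I' (fun i => (A i).erase u) hu.le (by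
      intro i hi
      have h1 := hI'u i hi
      rw [Finset.card_erase_of_mem h1.2]
      have := hA i h1.1
      omega)
    refine ⟨J', fun i hi => (hI'u i (hJ' hi)).1, insert u K, hK1, ?_⟩
    intro i hi j hj hij
    have h1 := (hI'u i (hJ' hi)).2
    have h2 := (hI'u j (hJ' hj)).2
    rw [← hK2 i hi j hj hij]
    ext a
    simp only [Finset.mem_inter, Finset.mem_insert, Finset.mem_erase]
    constructor
    · rintro ⟨ha, hb⟩
      by_cases hau : a = u
      · exact Or.inl hau
      · exact Or.inr ⟨⟨hau, ha⟩, hau, hb⟩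
    · rintro (rfl | ⟨⟨_, ha⟩, _, hb⟩)
      · exact ⟨h1, h2⟩
      · exact ⟨ha, hb⟩

/-- a tight path from `K` to `S` inside a given walk -/
theorem tight {V : Type} [DecidableEq V] (T : SimpleGraph V) (K S : Set V) {a b : V}
    (w : T.Walk a b) (ha : a ∈ K) (hb : b ∈ S) : ∃ x ∈ K, ∃ y ∈ S, ∃ q : T.Walk x y, q.IsPath ∧
      (∀ u ∈ q.support, u ∈ w.support) ∧ (∀ u ∈ q.support, u ∈ K → u = x) ∧
      ∀ u ∈ q.support, u ∈ S → u = y := by
  classical
  have hex : ∃ n : ℕ, ∃ x ∈ K, ∃ y ∈ S, ∃ q : T.Walk x y, q.IsPath ∧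
      (∀ u ∈ q.support, u ∈ w.support) ∧ q.length = n :=
    ⟨_, a, ha, b, hb, w.bypass, w.bypass_isPath,
      fun u hu => w.support_bypass_subset_support hu, rfl⟩
  obtain ⟨x, hx, y, hy, q, hq, hqs, hql⟩ := Nat.find_spec hex
  have hmin := fun n (hn : n < Nat.find hex) => Nat.find_min hex hn
  refine ⟨x, hx, y, hy, q, hq, hqs, ?_, ?_⟩
  · intro u hu huK
    by_contra hne
    have h1 : (q.dropUntil u hu).length < q.length := by
      have hspec := congrArg SimpleGraph.Walk.length (q.take_spec hu)
      rw [SimpleGraph.Walk.length_append] at hspec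
      have h0 : (q.takeUntil u hu).length ≠ 0 := by
        intro h0
        have hgv := q.getVert_length_takeUntil hu
        rw [h0, SimpleGraph.Walk.getVert_zero] at hgv
        exact hne hgv.symm
      omega
    rw [hql] at h1
    exact hmin _ h1 ⟨u, huK, y, hy, q.dropUntil u hu, hq.dropUntil hu,
      fun v hv => hqs v (q.support_dropUntil_subset_support hu hv), rfl⟩
  · intro u hu huS
    by_contra hne
    have h1 : (q.takeUntil u hu).length < q.length := q.length_takeUntil_lt_length hu hne
    rw [hql] at h1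
    exact hmin _ h1 ⟨x, hx, u, huS, q.takeUntil u hu, hq.takeUntil hu,
      fun v hv => hqs v (q.support_takeUntil_subset_support hu hv), rfl⟩

/-- the concatenation of two paths which meet only in the common end -/
theorem append_path {V : Type} {T : SimpleGraph V} {a b c : V} {p : T.Walk a b} {q : T.Walk b c}
    (hp : p.IsPath) (hq : q.IsPath) (h : ∀ u ∈ p.support, u ∈ q.support → u = b) :
    (p.append q).IsPath := by
  rw [SimpleGraph.Walk.isPath_def] at hp hq ⊢
  rw [SimpleGraph.Walk.support_append, List.nodup_append]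
  have hq' : q.support = b :: q.support.tail := (SimpleGraph.Walk.cons_tail_support _).symm
  rw [hq', List.nodup_cons] at hq
  refine ⟨hp, hq.2, ?_⟩
  intro u hu v hv huv
  subst huv
  have : u ∈ q.support := by rw [hq']; exact List.mem_cons_of_mem _ hv
  exact hq.1 (h u hu this ▸ hv)

/-- walks along an injective sequence -/
theorem seq_path {V : Type} [Fintype V] [DecidableEq V] {T : SimpleGraph V} (f : ℕ → V) (L : ℕ)
    (hadj : ∀ n < L, T.Adj (f n) (f (n + 1)))
    (hinj : ∀ a ≤ L, ∀ b ≤ L, f a = f b → a = b) :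
    ∃ q : T.Walk (f 0) (f L), q.IsPath ∧ q.length = L ∧ ∀ u ∈ q.support, ∃ n ≤ L, u = f n := by
  obtain ⟨q, hq⟩ := exists_walk T f L hadj
  refine ⟨q, ?_, ?_, ?_⟩
  · rw [SimpleGraph.Walk.isPath_def, hq]
    refine List.Nodup.map_on ?_ List.nodup_range
    intro a ha b hb hab
    rw [List.mem_range] at ha hb
    exact hinj a (by omega) b (by omega) hab
  · have := SimpleGraph.Walk.length_support q
    rw [hq, List.length_map, List.length_range] at this
    omega
  · intro u hu
    rw [hq, List.mem_map] at hu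
    obtain ⟨n, hn, rfl⟩ := hu
    rw [List.mem_range] at hn
    exact ⟨n, by omega, rfl⟩

/-- A graph of small radius (up to two vertices) with a long path has a vertex with four long
legs. -/
theorem hub (L : ℕ) : ∃ N : ℕ, ∀ (V : Type) [Fintype V] [DecidableEq V] (T : SimpleGraph V) (v : V)
    (B : Finset V), B.card ≤ 2 →
    (∀ z ∈ T.support, z ∉ B → ∃ p : T.Walk v z, p.length < L) →
    (∃ u w, ∃ p : T.Walk u w, p.IsPath ∧ N ≤ p.length) →
    ∃ (h : V) (z : Fin 4 → V) (p : ∀ i, T.Walk h (z i)), Legs T 4 L h z p := by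
  classical
  rcases Nat.eq_zero_or_pos L with hL0 | hL0
  · subst hL0
    refine ⟨0, fun V _ _ T v B _ _ _ => ⟨v, fun _ => v, fun _ => SimpleGraph.Walk.nil, ?_, ?_, ?_⟩⟩
    · intro i; exact SimpleGraph.Walk.IsPath.nil
    · intro i; exact Nat.zero_le _
    · intro i j _ u hu _
      simpa using hu
  set s := 3 * L + 1 with hs
  obtain ⟨M, hM⟩ := delta s (4 * s + 2)
  refine ⟨M * (2 * L + 1) + 1, fun V _ _ T v B hB hrad ⟨u0, w0, P, hP, hPN⟩ => ?_⟩
  set g : ℕ → V := P.getVert with hg
  have hginj : ∀ a ≤ P.length, ∀ b ≤ P.length, g a = g b → a = b := by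
    intro a ha b hb hab
    exact hP.getVert_injOn ha hb hab
  have hgadj : ∀ n < P.length, T.Adj (g n) (g (n + 1)) := fun n hn => P.adj_getVert_succ hn
  -- segments
  set S : Fin M → Finset V := fun i => (Finset.range (2 * L + 1)).image
    (fun t => g (i.val * (2 * L + 1) + t)) with hS
  have hidx : ∀ (i : Fin M) (t : ℕ), t < 2 * L + 1 → i.val * (2 * L + 1) + t < P.length := by
    intro i t ht
    have h1 : (i.val + 1) * (2 * L + 1) ≤ M * (2 * L + 1) := Nat.mul_le_mul_right _ i.2
    have h2 : (i.val + 1) * (2 * L + 1) = i.val * (2 * L + 1) + (2 * L + 1) := by ring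
    omega
  have hSdisj : ∀ i j : Fin M, i ≠ j → ∀ u, u ∈ S i → u ∈ S j → False := by
    intro i j hij u hui huj
    rw [hS] at hui huj
    simp only [Finset.mem_image, Finset.mem_range] at hui huj
    obtain ⟨t, ht, rfl⟩ := hui
    obtain ⟨t', ht', he⟩ := huj
    have h1 := hginj _ (hidx j t' ht').le _ (hidx i t ht).le he
    apply hij
    apply Fin.ext
    have h2 : (j.val * (2 * L + 1) + t') / (2 * L + 1) = j.val := by
      rw [mul_comm, Nat.mul_add_div (by omega), Nat.div_eq_of_lt ht', add_zero]
    have h3 : (i.val * (2 * L + 1) + t) / (2 * L + 1) = i.val := by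
      rw [mul_comm, Nat.mul_add_div (by omega), Nat.div_eq_of_lt ht, add_zero]
    rw [← h2, ← h3, h1]
  have hScard : ∀ i, (S i).card = 2 * L + 1 := by
    intro i
    rw [hS]
    simp only
    rw [Finset.card_image_of_injOn, Finset.card_range]
    intro a ha b hb hab
    have ha' : a < 2 * L + 1 := by simpa using ha
    have hb' : b < 2 * L + 1 := by simpa using hb
    have := hginj _ (hidx i a ha').le _ (hidx i b hb').le hab
    omega
  -- short walks to the segments
  have hQ : ∀ i : Fin M, ∃ z ∈ S i, ∃ Q : T.Walk v z, Q.length < L := by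
    intro i
    have h1 : ∃ z ∈ S i, z ∉ B := by
      by_contra hcon
      push Not at hcon
      have := Finset.card_le_card (show S i ⊆ B from fun z hz => hcon z hz)
      rw [hScard] at this
      omega
    obtain ⟨z, hz, hzB⟩ := h1
    refine ⟨z, hz, hrad z ?_ hzB⟩
    rw [hS] at hz
    simp only [Finset.mem_image, Finset.mem_range] at hz
    obtain ⟨t, ht, rfl⟩ := hz
    rw [SimpleGraph.mem_support]
    exact ⟨_, hgadj _ (hidx i t ht)⟩
  choose e he Q hQl using hQ
  set A : Fin M → Finset V := fun i => (Q i).support.toFinset ∪ S i with hA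
  have hAcard : ∀ i ∈ (Finset.univ : Finset (Fin M)), (A i).card ≤ s := by
    intro i _
    rw [hA]
    refine (Finset.card_union_le _ _).trans ?_
    rw [hScard]
    have h1 := List.toFinset_card_le (Q i).support
    rw [SimpleGraph.Walk.length_support] at h1
    have := hQl i
    omega
  obtain ⟨J, _, K, hJ, hK⟩ := hM Finset.univ A (by simp) hAcard
  have hvA : ∀ i, v ∈ A i := fun i => by
    rw [hA]; simp
  have hKs : K.card ≤ s ∧ v ∈ K := by
    have h2 : 1 < J.card := by omega
    obtain ⟨i, hi, j, hj, hij⟩ := Finset.one_lt_card.1 h2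
    rw [← hK i hi j hj hij]
    refine ⟨(Finset.card_le_card Finset.inter_subset_left).trans (hAcard i (Finset.mem_univ _)), ?_⟩
    rw [Finset.mem_inter]
    exact ⟨hvA i, hvA j⟩
  -- the indices whose segment does not meet the core
  obtain ⟨dj, hdj⟩ : ∃ dj : Fin M → Prop, ∀ i, dj i ↔ Disjoint K (S i) := ⟨_, fun _ => Iff.rfl⟩
  set J1 := J.filter dj with hJ1
  have hJ1c : 3 * s + 2 ≤ J1.card := by
    have h1 : (J.filter (fun i => ¬ dj i)).card ≤ K.card := by
      have hch : ∀ i : Fin M, ∃ u : V, ¬ Disjoint K (S i) → u ∈ K ∧ u ∈ S i := by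
        intro i
        by_cases h : Disjoint K (S i)
        · exact ⟨v, fun h' => absurd h h'⟩
        · rw [Finset.not_disjoint_iff] at h
          obtain ⟨u, h1, h2⟩ := h
          exact ⟨u, fun _ => ⟨h1, h2⟩⟩
      choose φ hφ using hch
      refine Finset.card_le_card_of_injOn φ ?_ ?_
      · intro i hi
        have hi' := (Finset.mem_filter.1 (Finset.mem_coe.1 hi)).2
        rw [hdj] at hi'
        exact (hφ i hi').1
      · intro i hi j hj hij
        have hi' := (Finset.mem_filter.1 (Finset.mem_coe.1 hi)).2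
        have hj' := (Finset.mem_filter.1 (Finset.mem_coe.1 hj)).2
        rw [hdj] at hi' hj'
        by_contra hne
        exact hSdisj i j hne (φ i) (hφ i hi').2 (hij ▸ (hφ j hj').2)
    have h2 : J1.card + (J.filter (fun i => ¬ dj i)).card = J.card := by
      rw [hJ1]
      convert Finset.card_filter_add_card_filter_not (s := J) dj
    have h3 := hKs.1
    omega
  -- the legs
  have hleg : ∀ i : Fin M, ∃ x : V, i ∈ J1 → x ∈ K ∧ ∃ z, ∃ R : T.Walk x z, R.IsPath ∧
      L ≤ R.length ∧ ∀ u ∈ R.support, u ∈ A i ∧ (u ∈ K → u = x) := by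
    intro i
    by_cases hi : i ∈ J1
    swap
    · exact ⟨v, fun h => absurd h hi⟩
    have hdis : Disjoint K (S i) := (hdj i).1 (Finset.mem_filter.1 hi).2
    obtain ⟨x, hx, y, hy, q, hq, hqs, hqK, hqS⟩ := tight T (K : Set V) (S i : Set V) (Q i)
      (Finset.mem_coe.2 hKs.2) (Finset.mem_coe.2 (he i))
    refine ⟨x, fun _ => ⟨Finset.mem_coe.1 hx, ?_⟩⟩
    -- a path of length L in the segment starting in y
    have hseg : ∃ z, ∃ r : T.Walk y z, r.IsPath ∧ r.length = L ∧ ∀ u ∈ r.support, u ∈ S i := by
      have hy' : y ∈ S i := Finset.mem_coe.1 hy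
      rw [hS] at hy'
      simp only [Finset.mem_image, Finset.mem_range] at hy'
      obtain ⟨t, ht, rfl⟩ := hy'
      have hmemS : ∀ t', t' < 2 * L + 1 → g (i.val * (2 * L + 1) + t') ∈ S i := by
        intro t' ht'
        rw [hS]
        exact Finset.mem_image.2 ⟨t', Finset.mem_range.2 ht', rfl⟩
      rcases Nat.lt_or_ge L t with htL | htL
      · -- go down
        obtain ⟨r, hr, hrl, hrs⟩ := seq_path (T := T)
          (fun n => g (i.val * (2 * L + 1) + (t - n))) L (by
            intro n hn
            have h1 := hgadj (i.val * (2 * L + 1) + (t - (n + 1))) (hidx i _ (by omega))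
            have h2 : i.val * (2 * L + 1) + (t - (n + 1)) + 1 =
              i.val * (2 * L + 1) + (t - n) := by omega
            rw [h2] at h1
            exact h1.symm) (by
            intro a ha b hb hab
            have := hginj _ (hidx i (t - a) (by omega)).le _ (hidx i (t - b) (by omega)).le hab
            omega)
        simp only [Nat.sub_zero] at r
        refine ⟨_, r, hr, hrl, ?_⟩
        intro u hu
        obtain ⟨n, hn, rfl⟩ := hrs u hu
        exact hmemS _ (by omega)
      · obtain ⟨r, hr, hrl, hrs⟩ := seq_path (T := T)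
          (fun n => g (i.val * (2 * L + 1) + t + n)) L (by
            intro n hn
            exact hgadj _ (by have := hidx i (t + n) (by omega); omega)) (by
            intro a ha b hb hab
            have h1 := hidx i (t + a) (by omega)
            have h2 := hidx i (t + b) (by omega)
            have := hginj _ (by omega) _ (by omega) hab
            omega)
        refine ⟨_, r, hr, hrl, ?_⟩
        intro u hu
        obtain ⟨n, hn, rfl⟩ := hrs u hu
        have := hmemS (t + n) (by omega)
        rwa [← add_assoc] at this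
    obtain ⟨z, r, hr, hrl, hrS⟩ := hseg
    refine ⟨z, q.append r, append_path hq hr ?_, ?_, ?_⟩
    · intro u hu hu'
      exact hqS u hu (Finset.mem_coe.2 (hrS u hu'))
    · rw [SimpleGraph.Walk.length_append]
      omega
    · intro u hu
      rw [SimpleGraph.Walk.mem_support_append_iff] at hu
      rcases hu with hu | hu
      · refine ⟨?_, fun huK => hqK u hu (Finset.mem_coe.2 huK)⟩
        rw [hA]
        exact Finset.mem_union_left _ (List.mem_toFinset.2 (hqs u hu))
      · refine ⟨?_, fun huK => ?_⟩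
        · rw [hA]
          exact Finset.mem_union_right _ (hrS u hu)
        · exact absurd (hrS u hu) (Finset.disjoint_left.1 hdis huK)
  choose x hx using hleg
  -- pigeonhole
  obtain ⟨h, hhK, hfib⟩ := Finset.exists_lt_card_fiber_of_mul_lt_card_of_maps_to (n := 3)
    (fun i hi => (hx i hi).1) (show K.card * 3 < J1.card by have := hKs.1; omega)
  set F := J1.filter (fun i => x i = h) with hF
  have hF4 : 4 ≤ F.card := hfib
  let emb := F.orderEmbOfCardLe hF4
  have hlegs : ∀ j : Fin 4, ∃ z, ∃ R : T.Walk h z, R.IsPath ∧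
      L ≤ R.length ∧ ∀ u ∈ R.support, u ∈ A (emb j) ∧ (u ∈ K → u = h) := by
    intro j
    have hmem : emb j ∈ F := F.orderEmbOfCardLe_mem hF4 j
    rw [hF, Finset.mem_filter] at hmem
    have h1 := (hx _ hmem.1).2
    rw [hmem.2] at h1
    exact h1
  choose z R hR1 hR2 hR3 using hlegs
  refine ⟨h, z, R, hR1, hR2, ?_⟩
  intro i j hij u hui huj
  have h1 := hR3 i u hui
  have h2 := hR3 j u huj
  apply h1.2
  have hne : emb i ≠ emb j := fun h => hij (emb.injective h)
  have hmJ : ∀ j, emb j ∈ J := fun j =>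
    (Finset.mem_filter.1 (Finset.mem_filter.1 (F.orderEmbOfCardLe_mem hF4 j)).1).1
  have hmi : emb i ∈ J := hmJ i
  have hmj : emb j ∈ J := hmJ j
  rw [← hK _ hmi _ hmj hne, Finset.mem_inter]
  exact ⟨h1.1, h2.1⟩

end Pool.Agent.TH883.FV.J2474
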